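import Mathlib
import Pool.Agent.Q222.EP.Final

/-!
# MP_79b5eb_lc: the equality problem in the varieties `M(n)`, `n ≥ 3`, and `S(n)`, `n ≥ 6`

Let `F` be a field of characteristic zero. The equality problem (uniform word problem) is
undecidable in the variety `M(n)` of associative `F`-algebras generated by the `n × n` matrices for
every `n ≥ 3`, and in the variety `S(n)` defined by the standard identity of degree `n` for every
`n ≥ 6`.

The definitions are in `Pool.Agent.Q222.EP.Defs`: `Poly` is the type of codes of noncommutative
polynomials without constant term with rational coefficients, a pair `(us, u)` of a list of codes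
and a code is a quasi-identity, `HoldsM F n` and `HoldsS F n` say that it holds in all algebras of
`M(n)` and `S(n)`.

The proof encodes a generalised Collatz map with undecidable halting problem. The variables are
`p, a, b, r, q` and `t_i`; the relations are `a ^ m q = q b`, `p a ^ i q = p t_i` (or
`p a ^ i q = 0` for a halting residue `i`), `t_i b = a ^ (a_i) t_i` and `t_i r = a ^ (e_i) q r`. They
imply `p a ^ N q r = 0` for a halting number `N`, in every associative algebra. For other numbers
there is a quotient of an algebra of triangular `4 × 4` matrices over a commutative ring where the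
relations hold and `p a ^ N q r ≠ 0`; it satisfies the identities of the `3 × 3` matrices, because
the triangular algebra is a quotient of an algebra of `3 × 3` matrices over the dual numbers.
-/

namespace Pool.Agent.Results.MP_79b5eb_lc.Undecidable

open Q222.EP

universe u

/-- **Main theorem.** For every field `F` of characteristic zero the equality problem is
undecidable in the variety `M(n)`, `n ≥ 3`, and in the variety `S(n)`, `n ≥ 6`. -/
theorem result (F : Type u) [Field F] [CharZero F] :
    (∀ n : ℕ, 3 ≤ n → ¬ ComputablePred (HoldsM F n)) ∧
    (∀ n : ℕ, 6 ≤ n → ¬ ComputablePred (HoldsS F n)) := by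
  constructor
  · intro n hn
    refine undec _ fun Y hm N => ⟨fun h => ?_, fun h A _ _ _ _ _ => quasi_of_halts Y hm h A⟩
    by_contra hN
    exact not_quasi hm hN (h (A0 F Y) (inM_A0 hn))
  · intro n hn
    refine undec _ fun Y hm N => ⟨fun h => ?_, fun h A _ _ _ _ _ => quasi_of_halts Y hm h A⟩
    by_contra hN
    exact not_quasi hm hN (h (A0 F Y) (inS_A0 hn))

end Pool.Agent.Results.MP_79b5eb_lc.Undecidable
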